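import Pool.Agent.H24.SCG.Base

/-!
Module `C2C` of the project SCG: if `w2 = 0` then `c` is outer.
-/

namespace Pool.Agent.H99.SCG

open Matrix Pool.SCG

theorem c2c_thm : Pool.SCG.C2CStmt := by
  intro F _ _ hF a b c d e b1 b2 b3 w1 α β γ s n hb hq
  rcases n.hc with hc | hc
  · exfalso
    apply s.bc
    rw [eq_comm, comm_inner_outer_iff hc hb]
    ext i j
    fin_cases i <;> fin_cases j <;> simp [dg, BM, Matrix.mul_apply, Fin.sum_univ_three]
  · exact hc.1

end Pool.Agent.H99.SCG
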